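import Mathlib

set_option autoImplicit false

namespace Pool.Agent.Results.MP_b298ef_co.Odd

open Finset

abbrev V (n : ℕ) := Fin n → ZMod 2

variable {n : ℕ}

def APN (F : V n → V n) : Prop :=
  ∀ a ≠ 0, ∀ b, (univ.filter (fun x => F x + F (x + a) = b)).card = 0 ∨
    (univ.filter (fun x => F x + F (x + a) = b)).card = 2

/-- Walsh transform -/
def W (F : V n → V n) (u v : V n) : ℤ := ∑ x, (-1) ^ (v ⬝ᵥ F x + u ⬝ᵥ x).val

def Plateaued (F : V n → V n) : Prop :=
  ∀ v ≠ 0, ∃ l : ℝ, 0 ≤ l ∧ ∀ u, (W F u v : ℝ) = 0 ∨ (W F u v : ℝ) = l ∨ (W F u v : ℝ) = -l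

/-- exclude multiplicity: 3-element subsets of the graph with sum `p` -/
def mult (F : V n → V n) (p : V n × V n) : ℕ :=
  (((univ.image (fun x => (x, F x))).powersetCard 3).filter (fun s => ∑ q ∈ s, q = p)).card

def e (u w : V n) : ℤ := (-1) ^ (u ⬝ᵥ w).val

theorem chi : ∀ s t : ZMod 2, (-1 : ℤ) ^ (s + t).val = (-1) ^ s.val * (-1) ^ t.val := by decide

theorem e_add (u w w' : V n) : e u (w + w') = e u w * e u w' := by
  simp only [e, dotProduct_add, chi]

theorem self_add (x : V n) : x + x = 0 := by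
  ext i; exact CharTwo.add_self_eq_zero _

theorem eq_iff (x y : V n) : x + y = 0 ↔ y = x := by
  rw [add_eq_zero_iff_neg_eq, eq_comm, neg_eq_of_add_eq_zero_left (self_add x)]

theorem e_sq (u w : V n) : e u w * e u w = 1 := by
  rw [← e_add, self_add]; simp [e]

theorem orth (w : V n) : ∑ u, e u w = if w = 0 then 2 ^ n else 0 := by
  split_ifs with h
  · simp [h, e]
  · obtain ⟨i, hi⟩ := Function.ne_iff.1 h
    have h1 : w i = 1 := by
      have : ∀ t : ZMod 2, t ≠ 0 → t = 1 := by decide
      exact this _ hi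
    have := Equiv.sum_comp (Equiv.addRight (Pi.single i (1 : ZMod 2) : V n)) (fun u => e u w)
    simp only [Equiv.coe_addRight, e, add_dotProduct, chi, single_dotProduct, h1, one_mul,
      ← sum_mul] at this ⊢
    have h2 : (-1 : ℤ) ^ (1 : ZMod 2).val = -1 := by decide
    rw [h2] at this
    linarith

theorem W_eq (F : V n → V n) (u v : V n) : W F u v = ∑ x, e v (F x) * e u x := by
  simp only [W, chi, e]

/-- Fourier transform times a function -/
theorem conv (g : V n → ℤ) (a : V n) : ∑ u, (∑ x, g x * e u x) * e u a = 2 ^ n * g a := by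
  simp only [sum_mul, mul_assoc, ← e_add]
  rw [sum_comm]
  simp only [← mul_sum, orth, add_comm _ a, eq_iff]
  simp [mul_comm]

theorem parseval (F : V n → V n) (v : V n) : ∑ u, W F u v ^ 2 = 2 ^ n * 2 ^ n := by
  have : ∀ u, W F u v ^ 2 = ∑ a, e v (F a) * (W F u v * e u a) := by
    intro u
    rw [sq]; nth_rewrite 2 [W_eq]
    rw [mul_sum]; exact sum_congr rfl (fun _ _ => by ring)
  simp only [this]
  rw [sum_comm]
  simp only [← mul_sum, W_eq, conv, mul_left_comm _ ((2 : ℤ) ^ n), e_sq]
  simp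

theorem cube (F : V n → V n) (v a : V n) : ∑ u, W F u v ^ 3 * e u a =
    2 ^ n * ∑ x, ∑ y, e v (F x + F y + F (a + x + y)) := by
  have : ∀ u, W F u v ^ 3 * e u a =
      ∑ x, ∑ y, e v (F x) * e v (F y) * (W F u v * e u (a + x + y)) := by
    intro u
    rw [pow_succ, sq]; nth_rewrite 1 [W_eq]; nth_rewrite 1 [W_eq]
    rw [sum_mul_sum, sum_mul, sum_mul]
    refine sum_congr rfl (fun _ _ => ?_)
    rw [sum_mul, sum_mul]
    exact sum_congr rfl (fun _ _ => by simp only [e_add]; ring)
  simp only [this]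
  rw [sum_comm, mul_sum]
  refine sum_congr rfl (fun x _ => ?_)
  rw [sum_comm, mul_sum]
  refine sum_congr rfl (fun y _ => ?_)
  rw [← mul_sum]
  simp only [W_eq, conv, e_add v]; ring

theorem amp (F : V n → V n) (h : Plateaued F) (v : V n) : ∃ μ : ℤ,
    (∀ u, W F u v ^ 3 = 2 ^ n * μ * W F u v) ∧ (Odd n → Even μ) ∧
    ∀ k, n = k + k → ∃ w, W F 0 v = 2 ^ k * w ∧ Even (w - μ) := by
  have hp := parseval F v
  obtain ⟨u0, h0⟩ : ∃ u0, W F u0 v ≠ 0 := by
    by_contra hn
    push Not at hn
    simp [hn] at hp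
  obtain ⟨l, hl⟩ : ∃ l : ℕ, ∀ u, W F u v = 0 ∨ W F u v = l ∨ W F u v = -l := by
    by_cases hv : v = 0
    · refine ⟨2 ^ n, fun u => ?_⟩
      have := orth u
      simp only [e, dotProduct_comm _ u] at this
      simp only [W, hv, zero_dotProduct, zero_add, this]
      split_ifs <;> simp
    · obtain ⟨l, -, hl⟩ := h v hv
      refine ⟨(W F u0 v).natAbs, fun u => ?_⟩
      have : W F u v = 0 ∨ W F u v = W F u0 v ∨ W F u v = - W F u0 v := by
        have h0' : (W F u0 v : ℝ) ≠ 0 := by exact_mod_cast h0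
        have : (W F u v : ℝ) = 0 ∨ (W F u v : ℝ) = W F u0 v ∨ (W F u v : ℝ) = - W F u0 v := by
          rcases hl u0 with a | a | a <;> rcases hl u with b | b | b <;> simp_all
        exact_mod_cast this
      omega
  set s := (univ.filter (fun u => W F u v ≠ 0)).card with hs
  have h1 : l ^ 2 * s = (2 ^ n) ^ 2 := by
    have : ∑ u, W F u v ^ 2 = ∑ u, (l : ℤ) ^ 2 * (if W F u v ≠ 0 then 1 else 0) :=
      sum_congr rfl (fun u _ => by
        by_cases z : W F u v = 0
        · simp [z]
        · rcases hl u with a | a | a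
          · exact absurd a z
          · rw [if_pos z, a]; ring
          · rw [if_pos z, a]; ring)
    rw [this, ← mul_sum, sum_boole, ← sq] at hp
    exact_mod_cast hp
  have h2 : s ≤ 2 ^ n := (card_le_univ _).trans (by simp)
  obtain ⟨j, -, rfl⟩ := (Nat.dvd_prime_pow Nat.prime_two).1
    ((Nat.pow_dvd_pow_iff two_ne_zero).1 (Dvd.intro _ h1))
  obtain ⟨t, ht⟩ : ∃ t, j + j = n + t := by
    have : 2 ^ n * 2 ^ n ≤ 2 ^ (j + j) * 2 ^ n := by
      rw [← sq, ← h1, pow_add, ← sq]; exact Nat.mul_le_mul_left _ h2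
    have := (Nat.pow_le_pow_iff_right (by norm_num)).1 (Nat.le_of_mul_le_mul_right this (by positivity))
    exact ⟨j + j - n, by omega⟩
  push_cast at hl
  refine ⟨2 ^ t, fun u => ?_, fun ho => ?_, fun k hk => ?_⟩
  · rw [← pow_add, ← ht, pow_add]
    rcases hl u with a | a | a <;> rw [a] <;> ring
  · exact even_two.pow_of_ne_zero (by rintro rfl; obtain ⟨_, _⟩ := ho; omega)
  · obtain ⟨r, rfl⟩ : ∃ r, j = k + r := ⟨j - k, by omega⟩
    rcases Nat.eq_zero_or_pos r with rfl | hr
    · obtain rfl : t = 0 := by omega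
      have : s = 2 ^ n := by
        rw [← pow_mul, show (k + 0) * 2 = n by omega, sq] at h1
        exact Nat.eq_of_mul_eq_mul_left (by positivity) h1
      have hall : univ.filter (fun u => W F u v ≠ 0) = univ :=
        eq_univ_of_card _ (by rw [← hs, this]; simp)
      have z := (mem_filter.1 (hall.ge (mem_univ 0))).2
      rcases hl 0 with a | a | a
      · exact absurd a z
      · exact ⟨1, by simp [a], by simp⟩
      · exact ⟨-1, by simp [a], by decide⟩
    · have a1 : Even ((2 : ℤ) ^ r) := even_two.pow_of_ne_zero (by omega)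
      have a2 : Even ((2 : ℤ) ^ t) := even_two.pow_of_ne_zero (by omega)
      rcases hl 0 with a | a | a
      · exact ⟨0, by simp [a], Even.zero.sub a2⟩
      · exact ⟨2 ^ r, by rw [a, pow_add], a1.sub a2⟩
      · exact ⟨-2 ^ r, by rw [a, pow_add]; ring, a1.neg.sub a2⟩

def T (F : V n → V n) (a b : V n) : Finset (V n × V n) :=
  univ.filter (fun p => F p.1 + F p.2 + F (a + p.1 + p.2) = b)

theorem T_card (F : V n → V n) (a b : V n) : ((T F a b).card : ℤ) =
    ∑ x, ∑ y, if F x + F y + F (a + x + y) = b then 1 else 0 := by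
  rw [T, card_filter, ← univ_product_univ, sum_product]; simp

theorem T_apn (F : V n → V n) (h : APN F) (a : V n) : ((T F a (F a)).card : ℤ) = 3 * 2 ^ n - 2 := by
  rw [T_card, ← add_sum_erase _ _ (mem_univ a), sum_congr (s₁ := univ.erase a) rfl (g := fun _ => (2 : ℤ))]
  · simp [self_add, add_assoc, card_erase_of_mem, Nat.one_le_two_pow]; ring
  · intro x hx
    have hx' : a + x ≠ 0 := by rw [Ne, eq_iff]; exact ne_of_mem_erase hx
    rw [sum_boole]
    have : univ.filter (fun y => F x + F y + F (a + x + y) = F a) =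
        univ.filter (fun y => F y + F (y + (a + x)) = F x + F a) := by
      refine filter_congr (fun y _ => ?_)
      rw [add_comm y, add_assoc]
      exact ⟨fun h => by rw [← h, ← add_assoc, self_add, zero_add],
        fun h => by rw [h, ← add_assoc, self_add, zero_add]⟩
    rw [this]
    rcases h _ hx' (F x + F a) with z | z
    · exact absurd (card_eq_zero.1 z) (Nonempty.ne_empty ⟨a, by
        rw [mem_filter, ← add_assoc, self_add, zero_add]; exact ⟨mem_univ _, add_comm _ _⟩⟩)
    · exact_mod_cast z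

theorem T_six (F : V n → V n) (a b : V n) (h : b ≠ F a) : (T F a b).card = 6 * mult F (a, b) := by
  have d1 : ∀ p ∈ T F a b, p.1 ≠ p.2 ∧ p.1 ≠ a + p.1 + p.2 ∧ p.2 ≠ a + p.1 + p.2 := by
    rintro ⟨x, y⟩ hp
    simp only [T, mem_filter, mem_univ, true_and] at hp
    refine ⟨?_, fun z => ?_, fun z => ?_⟩
    · rintro (rfl : x = y); simp [self_add, add_assoc] at hp; exact h hp.symm
    · have : y = a := by rw [← eq_iff]; linear_combination (exp := 1) -z
      rw [← z, add_right_comm, self_add, zero_add, this] at hp; exact h hp.symm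
    · have : x = a := by rw [← eq_iff]; linear_combination (exp := 1) -z
      rw [← z, add_assoc, self_add, add_zero, this] at hp; exact h hp.symm
  rw [mult, mul_comm, ← smul_eq_mul, ← sum_const]
  rw [card_eq_sum_card_fiberwise (f := fun p => ({(p.1, F p.1), (p.2, F p.2),
    (a + p.1 + p.2, F (a + p.1 + p.2))} : Finset (V n × V n)))]
  · refine sum_congr rfl (fun s hs => ?_)
    simp only [mem_filter, mem_powersetCard] at hs
    obtain ⟨⟨s1, s2⟩, s3⟩ := hs
    have g : ∀ q ∈ s, (q.1, F q.1) = q := fun q hq => by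
      obtain ⟨x, -, rfl⟩ := mem_image.1 (s1 hq); rfl
    rw [show 6 = s.offDiag.card by rw [offDiag_card, s2]]
    refine card_nbij' (fun p => ((p.1, F p.1), (p.2, F p.2))) (fun q => (q.1.1, q.2.1)) ?_ ?_
      (fun _ _ => rfl) (fun q hq => ?_)
    · intro p hp
      simp only [coe_filter, Set.mem_ofPred_eq] at hp
      rw [mem_coe, mem_offDiag, ← hp.2]
      exact ⟨by simp, by simp, fun z => (d1 p hp.1).1 (congrArg Prod.fst z)⟩
    · rintro ⟨p, q⟩ hq
      obtain ⟨q1, q2, q3⟩ := mem_offDiag.1 (mem_coe.1 hq)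
      have c1 : ((s.erase p).erase q).card = 1 := by
        rw [card_erase_of_mem (mem_erase.2 ⟨q3.symm, q2⟩), card_erase_of_mem q1, s2]
      obtain ⟨r, hr⟩ := card_eq_one.1 c1
      have q4 : q ∈ s.erase p := mem_erase.2 ⟨q3.symm, q2⟩
      have hr' : r ∈ s := mem_of_mem_erase (mem_of_mem_erase (hr.ge (mem_singleton_self r)))
      rw [← add_sum_erase _ _ q1, ← add_sum_erase _ _ q4, hr, sum_singleton] at s3
      have r1 : a + p.1 + q.1 = r.1 := by
        have := congrArg Prod.fst s3
        simp only [Prod.fst_add] at this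
        rw [← this]
        linear_combination (exp := 1) self_add p.1 + self_add q.1
      simp only [coe_filter, Set.mem_ofPred_eq, T, mem_filter, mem_univ, true_and, r1, g p q1,
        g q q2, g r hr']
      refine ⟨?_, by rw [← hr, insert_erase q4, insert_erase q1]⟩
      have := congrArg Prod.snd s3
      rw [← g p q1, ← g q q2, ← g r hr'] at this
      simpa [add_assoc] using this
    · obtain ⟨q1, q2, -⟩ := mem_offDiag.1 (mem_coe.1 hq)
      simp only [g _ q1, g _ q2]
  · intro p hp
    obtain ⟨a1, a2, a3⟩ := d1 p hp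
    simp only [T, coe_filter, mem_univ, true_and, Set.mem_ofPred_eq] at hp
    simp only [coe_filter, Set.mem_ofPred_eq, mem_powersetCard]
    refine ⟨⟨fun q hq => ?_, card_eq_three.2 ⟨_, _, _, by simp [a1], by simp only [Ne, Prod.mk.injEq, a2]; simp,
      by simp only [Ne, Prod.mk.injEq, a3]; simp, rfl⟩⟩, ?_⟩
    · simp only [mem_insert, mem_singleton] at hq
      rcases hq with rfl | rfl | rfl <;> simp
    · rw [sum_insert (by simp only [mem_insert, mem_singleton, Prod.mk.injEq, a1, a2]; simp),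
        sum_pair (by simp only [Ne, Prod.mk.injEq, a3]; simp)]
      refine Prod.ext ?_ (by simpa [add_assoc] using hp)
      simp only [Prod.fst_add]
      linear_combination (exp := 1) self_add p.1 + self_add p.2

theorem result (n : ℕ) (hn : 3 ≤ n) (F : V n → V n) (h1 : APN F) (h2 : Plateaued F) (a b : V n)
    (hb : b ≠ F a) : Odd (mult F (a, b)) := by
  choose μ m1 m2 m3 using amp F h2
  have hN : (2 : ℤ) ^ n ≠ 0 := by positivity
  have key : ∀ c, ((T F a c).card : ℤ) = ∑ v, μ v * e v (F a + c) := by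
    intro c
    have k1 : ∀ v, 2 ^ n * (μ v * e v (F a)) = ∑ x, ∑ y, e v (F x + F y + F (a + x + y)) := by
      intro v
      refine mul_left_cancel₀ hN ?_
      rw [← cube]
      simp only [m1, mul_assoc, ← mul_sum]
      simp only [W_eq, conv]; ring
    refine mul_left_cancel₀ hN ?_
    simp only [mul_sum, e_add, ← mul_assoc _ _ (e _ c), k1, sum_mul, T_card]
    symm
    rw [sum_comm]
    refine sum_congr rfl (fun x _ => ?_)
    rw [sum_comm]
    refine sum_congr rfl (fun y _ => ?_)
    simp only [← e_add, orth, eq_iff, eq_comm (a := c)]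
    split_ifs <;> simp
  let t : V n → ℤ := fun v => (v ⬝ᵥ (F a + b)).val
  have ht : ∀ v, e v (F a + b) = 1 - 2 * t v := fun v => by
    have : ∀ s : ZMod 2, (-1 : ℤ) ^ s.val = 1 - 2 * (s.val : ℤ) := by decide
    exact this _
  have ev : Even (∑ v, μ v * t v) := by
    rcases Nat.even_or_odd n with ⟨k, hk⟩ | ho
    · choose w w1 w2 using fun v => m3 v k hk
      obtain ⟨K, hK⟩ : (2 : ℤ) ^ n ∣ ∑ v, W F 0 v * (1 - e v (F a + b)) := by
        simp only [W_eq, sum_mul]
        rw [sum_comm]
        refine dvd_sum (fun x _ => ?_)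
        have z : e 0 x = 1 := by simp [e]
        simp only [z, mul_sub, mul_one, ← e_add, sum_sub_distrib, orth]
        refine dvd_sub ?_ ?_ <;> split_ifs <;> simp
      obtain ⟨i, rfl⟩ : ∃ i, k = i + 2 := ⟨k - 2, by omega⟩
      have : ∑ v, w v * t v = 2 * (2 ^ i * K) := by
        refine mul_left_cancel₀ (show (2 : ℤ) ^ (i + 2) * 2 ≠ 0 by positivity) ?_
        rw [show (2 : ℤ) ^ (i + 2) * 2 * (2 * (2 ^ i * K)) = 2 ^ n * K by rw [hk]; ring, ← hK, mul_sum]
        exact sum_congr rfl (fun v _ => by rw [w1, ht]; ring)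
      have e2 : Even (∑ v, (w v - μ v) * t v) := even_sum _ (fun v _ => (w2 v).mul_right _)
      simp only [sub_mul, sum_sub_distrib, this] at e2
      simpa [Int.even_sub] using e2
    · exact even_sum _ (fun v _ => (m2 v ho).mul_right _)
  have k0 := key (F a)
  have k1 := key b
  rw [T_apn F h1, self_add] at k0
  rw [T_six F a b hb] at k1
  simp only [ht, mul_sub, sum_sub_distrib, mul_one, mul_left_comm _ (2 : ℤ), ← mul_sum] at k1
  simp only [e, dotProduct_zero, ZMod.val_zero, pow_zero, mul_one] at k0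
  obtain ⟨i, rfl⟩ : ∃ i, n = i + 2 := ⟨n - 2, by omega⟩
  obtain ⟨r, hr⟩ := ev
  rw [← k0, hr, pow_add] at k1
  rw [Nat.odd_iff]
  push_cast at k1
  omega

end Pool.Agent.Results.MP_b298ef_co.Odd
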